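import Pool.Agent.Lib_helper9.AAS.Gen

/-!
# Almost all prime levels: the exact threshold at every scale, and a zero-one law

Let `N` be a prime, `H₂⁺(N)` the set of normalised Hecke eigen-newforms `f` of weight `2` for
`Γ₀(N)` with even functional equation, counted with natural (equal) weights, `P_t(N)` the
proportion of the `f ∈ H₂⁺(N)` with `L(1/2, f) > t`, and `p_A(N) = P_t(N)` for
`t = (log N)^{-A}`.

* At every scale `ω` the following are equivalent: for some `C`, more than half (`1/2 + c'`) of the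
  central values exceed `exp(-C ω(log N))` at almost all prime levels `N`; the same at a positive
  proportion (lower density) of the prime levels; the zero-free region
  `1 - β ≥ exp(-C ω(log q))` for odd real characters; the lower bound
  `h(K) ≥ √|d| exp(-C ω(log |d|))` for imaginary quadratic fields.  Otherwise, for every `C ≥ 1`,
  the levels with `|P_t(N) - 1/2| ≤ ε` have relative upper density `1`.
* At almost all prime levels only odd characters obstruct: if no odd real primitive `χ` of conductor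
  at most `N^κ` with `χ(-N) = 1` has a real zero `β > 1 - w(N)`, where `w(N) log N → 0`, then more
  than half of the central values exceed `w(N) (log N)^{1/2 - δ}`.
* The case of `p_A` (Q1 at almost all prime levels), with the exact exponent for `A > 1/2`.

Authors of the blocks (team): helper9 (this file, `Lib_helper9/MED`, `Lib_helper9/AAS`); the method
of the consequences is that of `Lib_helper84/T12`; the laws come from the libraries of the other
hand-ins for this problem, see `Lib_helper82/T12`, `Lib_helper41/TK`, `Lib_helper15/TEM`,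
`Lib_helper84/TU`, `Lib_helper68/TKS`, `Lib_helper82/CN`, and the authors named in `AlmostAllLevels`
and in `CriticalExponent`.
-/

namespace Pool.Agent.Results.MP_cc4f83_nt.AlmostAllScales

open Complex MeasureTheory ProbabilityTheory Filter Topology
open scoped MatrixGroups

/-- The space of cusp forms of weight `2` for `Γ₀(N)`. -/
abbrev S2 (N : ℕ) : Type :=
  CuspForm (CongruenceSubgroup.Gamma0 N : Subgroup (GL (Fin 2) ℝ)) 2

/-- The Fourier coefficients `a(n)`, `f(z) = ∑ a(n) e^{2πinz}`. -/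
noncomputable def coeff {N : ℕ} (f : S2 N) (n : ℕ) : ℂ := (UpperHalfPlane.qExpansion 1 f).coeff n

/-- `f` is a normalised Hecke eigen-newform of prime level `N` and weight `2`: `a(1) = 1` and the
coefficients satisfy all Hecke relations.  (All forms of prime level and weight `2` are new.) -/
structure IsNewform {N : ℕ} (f : S2 N) : Prop where
  one : coeff f 1 = 1
  mul : ∀ m n : ℕ, m.Coprime n → coeff f (m * n) = coeff f m * coeff f n
  hecke : ∀ p r : ℕ, p.Prime → p ≠ N →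
    coeff f (p ^ (r + 2)) = coeff f p * coeff f (p ^ (r + 1)) - (p : ℂ) * coeff f (p ^ r)
  level : ∀ r : ℕ, coeff f (N ^ (r + 1)) = coeff f N ^ (r + 1)

/-- The L-function `∑ a(n) n^{-s}` (Mathlib's entire continuation), classical normalisation: the
centre is `s = 1`, and `L(1/2, f)` in the analytic normalisation is `L f 1`. -/
noncomputable def L {N : ℕ} [Fact N.Prime] (f : S2 N) (s : ℂ) : ℂ :=
  ModularForm.L (k := 2) two_pos f s

/-- The completed L-function has the functional equation with sign `+1`. -/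
def EvenFE {N : ℕ} [Fact N.Prime] (f : S2 N) : Prop := ∀ s : ℂ, 0 < s.re → s.re < 2 →
  ((Real.sqrt N / (2 * Real.pi) : ℝ) : ℂ) ^ s * Complex.Gamma s * L f s =
    ((Real.sqrt N / (2 * Real.pi) : ℝ) : ℂ) ^ (2 - s) * Complex.Gamma (2 - s) * L f (2 - s)

/-- The set `H₂⁺(N)`. -/
def H (N : ℕ) [Fact N.Prime] : Set (S2 N) := {f | IsNewform f ∧ EvenFE f}

/-- `P_t(N)`: the proportion of the `f ∈ H₂⁺(N)` with `L(1/2, f) > t`. -/
noncomputable def P (N : ℕ) [Fact N.Prime] (t : ℝ) : ℝ :=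
  ({f : S2 N | f ∈ H N ∧ t < (L f 1).re}.ncard : ℝ) / ((H N).ncard : ℝ)

/-- `p_A(N)`: the proportion of the `f ∈ H₂⁺(N)` with `L(1/2, f) > (log N)^{-A}`. -/
noncomputable def pA (A : ℝ) (N : ℕ) [Fact N.Prime] : ℝ := P N (Real.log N ^ (-A))

/-- No odd real primitive character `χ` of conductor `q`, `1 < q ≤ D`, with `χ(-N) = 1` has a real
zero `β > 1 - w`. -/
def NoOddZero (N : ℕ) (w D : ℝ) : Prop :=
  ∀ (q : ℕ) [NeZero q], 1 < q → (q : ℝ) ≤ D → ∀ χ : DirichletCharacter ℂ q, χ.IsPrimitive →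
    χ ^ 2 = 1 → χ.Odd → χ (-(N : ZMod q)) = 1 → ∀ β : ℝ, 1 - w < β →
      DirichletCharacter.LFunction χ (β : ℂ) ≠ 0

/-- `β < 1` is a real zero of `L(s, χ)`, `χ` a real primitive character of conductor `q > 1`. -/
structure RealZero {q : ℕ} [NeZero q] (χ : DirichletCharacter ℂ q) (β : ℝ) : Prop where
  one_lt : 1 < q
  prim : χ.IsPrimitive
  sq : χ ^ 2 = 1
  lt_one : β < 1
  zero : DirichletCharacter.LFunction χ (β : ℂ) = 0

/-- `1 - β ≥ (log q)^{-B}` for all real zeros `β` of odd real primitive characters of large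
conductor `q`. -/
def RegionLog (B : ℝ) : Prop := ∃ q₀ : ℕ, ∀ (q : ℕ) [NeZero q], q₀ ≤ q →
  ∀ (χ : DirichletCharacter ℂ q) (β : ℝ), RealZero χ β → χ.Odd → Real.log q ^ (-B) ≤ 1 - β

/-- `h(K) ≥ c √|d| (log |d|)^{-B}` for all imaginary quadratic fields `K`: `d` is the discriminant
and `h` the class number. -/
def ClassLog (B : ℝ) : Prop := ∃ c : ℝ, 0 < c ∧ ∀ (K : Type) [Field K] [NumberField K],
  Module.finrank ℚ K = 2 → NumberField.discr K < 0 →
  c * Real.sqrt |(NumberField.discr K : ℝ)| * Real.log |(NumberField.discr K : ℝ)| ^ (-B) ≤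
    NumberField.classNumber K

/-- The scales: `ω` is nondecreasing on `[1, ∞)`, and `ω(x) ≥ log x`, `ω(2x) ≤ K ω(x)` there. -/
structure Scale (ω : ℝ → ℝ) : Prop where
  mono : ∀ x y : ℝ, 1 ≤ x → x ≤ y → ω x ≤ ω y
  log_le : ∀ x : ℝ, 1 ≤ x → Real.log x ≤ ω x
  doubling : ∃ K : ℝ, ∀ x : ℝ, 1 ≤ x → ω (2 * x) ≤ K * ω x

/-- `1 - β ≥ exp(-C ω(log q))` for all real zeros `β` of odd real primitive characters of large
conductor `q`. -/
def RegionOdd (ω : ℝ → ℝ) (C : ℝ) : Prop := ∃ q₀ : ℕ, ∀ (q : ℕ) [NeZero q], q₀ ≤ q →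
  ∀ (χ : DirichletCharacter ℂ q) (β : ℝ), RealZero χ β → χ.Odd →
    Real.exp (-(C * ω (Real.log q))) ≤ 1 - β

/-- `h(K) ≥ √|d| exp(-C ω(log |d|))` for all imaginary quadratic fields `K` with large `|d|`: `d`
is the discriminant and `h` the class number. -/
def ClassIm (ω : ℝ → ℝ) (C : ℝ) : Prop := ∃ d₀ : ℝ, ∀ (K : Type) [Field K] [NumberField K],
  Module.finrank ℚ K = 2 → NumberField.discr K < 0 → d₀ ≤ |(NumberField.discr K : ℝ)| →
  Real.sqrt |(NumberField.discr K : ℝ)| *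
    Real.exp (-(C * ω (Real.log |(NumberField.discr K : ℝ)|))) ≤ NumberField.classNumber K

/-- `P_t(N) ≥ 1/2 + c`, `t = exp(-C ω(log N))`. -/
def Above (ω : ℝ → ℝ) (c C : ℝ) (N : ℕ) : Prop := ∀ h : N.Prime,
  1 / 2 + c ≤ @P N ⟨h⟩ (Real.exp (-(C * ω (Real.log N))))

/-- `|P_t(N) - 1/2| ≤ ε`, `t = exp(-C ω(log N))`. -/
def NearHalf (ω : ℝ → ℝ) (ε C : ℝ) (N : ℕ) : Prop := ∀ h : N.Prime,
  |@P N ⟨h⟩ (Real.exp (-(C * ω (Real.log N)))) - 1 / 2| ≤ ε

/-- The share of the primes `N ≤ X` with `Q N` among all primes `N ≤ X`. -/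
noncomputable def share (Q : ℕ → Prop) (X : ℕ) : ℝ :=
  ({N : ℕ | N ≤ X ∧ N.Prime ∧ Q N}.ncard : ℝ) / ({N : ℕ | N ≤ X ∧ N.Prime}.ncard : ℝ)

/-- `Q N` for almost all primes `N`: relative density `1`. -/
def AlmostAll (Q : ℕ → Prop) : Prop := Tendsto (share Q) atTop (𝓝 1)

/-- The primes `N` with `Q N` have positive relative lower density. -/
def PosLower (Q : ℕ → Prop) : Prop := ∃ η : ℝ, 0 < η ∧ ∀ᶠ X : ℕ in atTop, η ≤ share Q X

/-- The primes `N` with `Q N` have relative upper density `1`. -/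
def UpperOne (Q : ℕ → Prop) : Prop :=
  ∀ η : ℝ, 0 < η → ∃ᶠ X : ℕ in atTop, 1 - η ≤ share Q X

theorem H_eq (N : ℕ) [Fact N.Prime] : H N = LEV.HE N := by
  ext f
  constructor
  · rintro ⟨h, h'⟩
    exact ⟨⟨h.one, h.mul, h.hecke, h.level⟩, h'⟩
  · rintro ⟨h, h'⟩
    exact ⟨⟨h.one, h.mul, h.hecke, h.level⟩, h'⟩

theorem P_eq (N : ℕ) [Fact N.Prime] (t : ℝ) : P N t = MED.sT N t := by
  unfold P MED.sT T12.sh
  rw [H_eq]
  rfl

theorem pA_eq (A : ℝ) (N : ℕ) [Fact N.Prime] : pA A N = T12.rA A N := P_eq N _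

theorem rz_iff {q : ℕ} [NeZero q] (χ : DirichletCharacter ℂ q) (β : ℝ) :
    RealZero χ β ↔ T12.RZ χ β := by
  constructor
  · intro h
    refine ⟨⟨h.prim, h.sq, ?_⟩, h.lt_one, h.zero⟩
    intro h3
    have h1 := h.prim
    rw [h3] at h1
    have h4 : (1 : DirichletCharacter ℂ q).conductor = q := h1
    rw [DirichletCharacter.conductor_one] at h4
    have := h.one_lt
    omega
  · intro h
    refine ⟨?_, h.pq.prim, h.pq.sq, h.lt, h.zero⟩
    rcases Nat.lt_or_ge 1 q with h6 | h6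
    · exact h6
    · exfalso
      have h7 : q = 1 := by
        have := NeZero.ne q
        omega
      subst h7
      exact h.pq.ne (Subsingleton.elim _ _)

theorem regionLog_iff (B : ℝ) : RegionLog B ↔ T12.ZB (fun χ => χ.Odd) B := by
  unfold RegionLog T12.ZB
  simp only [rz_iff]

theorem scale_iff (ω : ℝ → ℝ) : Scale ω ↔ MED.Sc ω :=
  ⟨fun h => ⟨h.mono, h.log_le, h.doubling⟩, fun h => ⟨h.mono, h.log_le, h.dbl⟩⟩

theorem region_iff (ω : ℝ → ℝ) : (∃ C : ℝ, RegionOdd ω C) ↔ AAS.ZO ω := by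
  unfold RegionOdd AAS.ZO
  simp only [rz_iff]

theorem class_iff (ω : ℝ → ℝ) : (∃ C : ℝ, ClassIm ω C) ↔ AAS.CO ω := Iff.rfl

theorem above_iff (ω : ℝ → ℝ) (c C : ℝ) : Above ω c C = AAS.Gd ω c C := by
  funext N
  unfold Above AAS.Gd
  simp only [P_eq]

theorem near_iff (ω : ℝ → ℝ) (ε C : ℝ) : NearHalf ω ε C = AAS.Hf ω ε C := by
  funext N
  unfold NearHalf AAS.Hf
  simp only [P_eq]

theorem almostAll_iff (Q : ℕ → Prop) : AlmostAll Q ↔ T12.AlmostAll Q :=
  (T12.almostAll_iff Q).symm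

theorem upperOne_iff (Q : ℕ → Prop) : UpperOne Q ↔ T12.UpperOne Q :=
  (T12.upperOne_iff Q).symm

theorem AlmostAll.mono {Q R : ℕ → Prop} (h : AlmostAll Q) (hQ : ∀ N, Q N → R N) :
    AlmostAll R := by
  rw [almostAll_iff] at h ⊢
  intro η hη
  obtain ⟨X₀, h⟩ := h η hη
  refine ⟨X₀, fun X hX => ?_⟩
  have h1 := T12.cp_le_add (P := fun n => ¬ R n) (Q := fun n => ¬ Q n) (X := X) (le_refl (0 : ℝ))
    (fun n _ _ _ h2 h3 => h2 (hQ n h3))
  have := h X hX
  linarith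

theorem AlmostAll.posLower {Q : ℕ → Prop} (h : AlmostAll Q) : PosLower Q :=
  ⟨1 / 2, by norm_num, (h.eventually_const_lt (by norm_num)).mono fun _ hX => le_of_lt hX⟩

theorem posLower_cp {Q : ℕ → Prop} (h : PosLower Q) : ∃ η : ℝ, 0 < η ∧ ∃ X₀ : ℕ, ∀ X : ℕ,
    X₀ ≤ X → η * T12.pix X ≤ T12.cp Q X := by
  obtain ⟨η, hη, h⟩ := h
  obtain ⟨X₀, h⟩ := eventually_atTop.1 h
  refine ⟨η, hη, X₀ + 2, fun X hX => ?_⟩
  have h1 := h X (by omega)
  have h2 := T12.pix_pos (show 2 ≤ X by omega)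
  have h3 : share Q X = T12.share Q X := rfl
  rw [h3, T12.share_eq (by omega)] at h1
  have h4 := T12.cp_compl Q X
  have h5 : T12.cp (fun n => ¬ Q n) X ≤ (1 - η) * T12.pix X := by
    rw [← div_le_iff₀ h2]
    linarith
  linarith

theorem result : ∃ c κ : ℝ, 0 < c ∧ 0 < κ ∧
    (∀ ω : ℝ → ℝ, Scale ω → ∀ c' : ℝ, 0 < c' → c' ≤ c →
      ((∃ C : ℝ, AlmostAll (Above ω c' C)) ↔ ∃ C : ℝ, PosLower (Above ω c' C)) ∧
      ((∃ C : ℝ, AlmostAll (Above ω c' C)) ↔ ∃ C : ℝ, RegionOdd ω C) ∧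
      ((∃ C : ℝ, AlmostAll (Above ω c' C)) ↔ ∃ C : ℝ, ClassIm ω C) ∧
      ((∃ C : ℝ, AlmostAll (Above ω c' C)) ∨
        ∀ C ε : ℝ, 1 ≤ C → 0 < ε → UpperOne (NearHalf ω ε C))) ∧
    (∀ δ : ℝ, 0 < δ → ∀ w : ℕ → ℝ, (∀ N : ℕ, 0 < w N) →
      Tendsto (fun N : ℕ => w N * Real.log N) atTop (𝓝 0) →
      AlmostAll (fun N => ∀ h : N.Prime, NoOddZero N (w N) ((N : ℝ) ^ κ) →
        1 / 2 + c ≤ @P N ⟨h⟩ (w N * Real.log N ^ (1 / 2 - δ)))) ∧
    ((∃ A c' : ℝ, 0 < A ∧ 0 < c' ∧ AlmostAll (fun N => ∀ h : N.Prime, 1 / 2 + c' ≤ @pA A N ⟨h⟩)) ↔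
      ∃ B : ℝ, ClassLog B) ∧
    (∀ A δ : ℝ, 1 / 2 < A → 0 < δ → RegionLog (A + 1 / 2 - δ) →
      AlmostAll (fun N => ∀ h : N.Prime, 1 / 2 + c ≤ @pA A N ⟨h⟩)) ∧
    (∀ A δ : ℝ, 1 / 2 < A → 0 < δ → ¬ RegionLog (A + 1 / 2 + δ) → ∀ ε : ℝ, 0 < ε →
      UpperOne (fun N => ∀ h : N.Prime, |@pA A N ⟨h⟩ - 1 / 2| ≤ ε)) := by
  obtain ⟨c₁, hc₁, H1⟩ := AAS.aas_low
  obtain ⟨c₂, κ, hc₂, hκ, H2⟩ := AAS.aas_gen
  obtain ⟨c₃, hc₃, H3⟩ := T12.rA_laws.c3s
  obtain ⟨c, hcd⟩ : ∃ c, c = min c₁ (min c₂ c₃) := ⟨_, rfl⟩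
  have hc : 0 < c := by rw [hcd]; exact lt_min hc₁ (lt_min hc₂ hc₃)
  have e1 : c ≤ c₁ := by rw [hcd]; exact min_le_left _ _
  have e2 : c ≤ c₂ := by rw [hcd]; exact (min_le_right _ _).trans (min_le_left _ _)
  have e3 : c ≤ c₃ := by rw [hcd]; exact (min_le_right _ _).trans (min_le_right _ _)
  refine ⟨c, κ, hc, hκ, fun ω hω c' hc' hcc => ?_, fun δ hδ w hw0 hw => ?_, ?_,
    fun A δ hA hδ hr => ?_, fun A δ hA hδ hr ε hε => ?_⟩
  · have hω' := (scale_iff ω).1 hω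
    have k1 : AAS.ZO ω → ∃ C : ℝ, AlmostAll (Above ω c' C) := by
      intro hz
      obtain ⟨C, h⟩ := H1 ω hω' hz
      refine ⟨C, ((almostAll_iff _).2 h).mono fun N hN => ?_⟩
      rw [above_iff]
      intro hp
      have := hN hp
      linarith
    have k2 : (∃ C : ℝ, PosLower (Above ω c' C)) → AAS.ZO ω := by
      rintro ⟨C, h⟩
      obtain ⟨η, hη, X₀, h⟩ := posLower_cp h
      rw [above_iff] at h
      exact AAS.aas_pos hω' hc' hη h
    have k3 : (∃ C : ℝ, AlmostAll (Above ω c' C)) → ∃ C : ℝ, PosLower (Above ω c' C) :=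
      fun ⟨C, h⟩ => ⟨C, h.posLower⟩
    have k4 : (∃ C : ℝ, AlmostAll (Above ω c' C)) ↔ AAS.ZO ω := ⟨fun h => k2 (k3 h), k1⟩
    refine ⟨⟨k3, fun h => k1 (k2 h)⟩, ?_, ?_, ?_⟩
    · rw [region_iff]
      exact k4
    · rw [class_iff]
      exact k4.trans ((AAS.zo_iff_lo hω').trans (AAS.lo_iff_co hω'))
    · by_cases hz : AAS.ZO ω
      · exact Or.inl (k1 hz)
      · refine Or.inr fun C ε hC hε => ?_
        rw [upperOne_iff, near_iff]
        exact AAS.aas_up hω' hz C ε hC hε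
  · refine ((almostAll_iff _).2 (H2 δ hδ w hw0 hw)).mono fun N hN hp hno => ?_
    rw [P_eq]
    have h1 := hN hp fun q _ χ β hr hq ho hs => by
      have hr' := (rz_iff χ β).2 hr
      by_contra hcon
      push Not at hcon
      exact hno q hr'.one_lt hq χ hr'.prim hr'.sq ho hs β (by linarith) hr'.zero
    linarith
  · simp only [pA_eq, almostAll_iff]
    exact T12.main_almost
  · have h1 := H3 A δ hA hδ ((regionLog_iff _).1 hr)
    refine ((almostAll_iff _).2 h1).mono fun N hN hp => ?_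
    rw [pA_eq]
    have := hN hp
    linarith
  · simp only [pA_eq]
    exact (upperOne_iff _).2
      (T12.rA_laws.c4 A δ hA hδ (fun h => hr ((regionLog_iff _).2 h)) ε hε)

end Pool.Agent.Results.MP_cc4f83_nt.AlmostAllScales
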