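import Pool.Agent.Lib_helper9.MED.Fin

/-!
# More than half of the central values: the exact threshold at every level and at every scale

Let `N` be a prime, `H₂⁺(N)` the set of normalised Hecke eigen-newforms `f` of weight `2` for
`Γ₀(N)` with even functional equation, counted with natural (equal) weights, and `P_t(N)` the
proportion of the `f ∈ H₂⁺(N)` with `L(1/2, f) > t`.

* At every large prime level `N` more than half of the central values are nonzero: for every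
  `ε > 0`, at least the proportion `1/2 + c` of them exceeds `N^{-ε}`, with an absolute `c > 0`.
* If no real primitive character `χ` of conductor at most `N^κ` with `χ(-N) = 1` has a real zero
  `β > 1 - w`, `w ≤ 1 / log N`, then the proportion `1/2 + c` exceeds `w (log N)^{1/2 - δ}`.
* Conversely, if there is such a character with a real zero `β` close to `1`, then at most the
  proportion `1/2 + ε` exceeds `(1 - β) (log N)^{1/2 + δ}` (and at least the proportion `3/5 - ε`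
  exceeds `(1 - β) (log N)^{1/2 - δ}`).
* Hence, at every scale `exp(-C ω(log N))` between `N^{-ε}` and the powers of `log N`, the
  statement that more than half of the central values are larger is equivalent to the zero-free
  region `1 - β ≥ exp(-C' ω(log q))` for real characters, and to the lower bound
  `h(K) R(K) ≥ √|d| exp(-C'' ω(log |d|))` for quadratic fields (`ω(x) = 1 + log x` is Q1).

Authors of the blocks (team): helper9 (this file and `Lib_helper9/MED`); the laws come from the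
libraries of the other hand-ins for this problem, see `Lib_helper82/T12`, `Lib_helper41/TK`,
`Lib_helper15/TEM`, `Lib_helper84/TU`, `Lib_helper68/TKS`, `Lib_helper82/CN`, `Lib_helper62/SIE` and
the authors named in `CriticalExponent` and in `MoreThanHalfNonzero`.
-/

namespace Pool.Agent.Results.MP_cc4f83_nt.CentralMedianLaw

open Complex
open scoped MatrixGroups

/-- The space of cusp forms of weight `2` for `Γ₀(N)`. -/
abbrev S2 (N : ℕ) : Type :=
  CuspForm (CongruenceSubgroup.Gamma0 N : Subgroup (GL (Fin 2) ℝ)) 2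

/-- The Fourier coefficients `a(n)`, `f(z) = ∑ a(n) e^{2πinz}`. -/
noncomputable def coeff {N : ℕ} (f : S2 N) (n : ℕ) : ℂ := (UpperHalfPlane.qExpansion 1 f).coeff n

/-- `f` is a normalised Hecke eigen-newform of prime level `N` and weight `2`: `a(1) = 1` and the
coefficients satisfy all Hecke relations.  (All forms of prime level and weight `2` are new.) -/
structure IsNewform {N : ℕ} (f : S2 N) : Prop where
  one : coeff f 1 = 1
  mul : ∀ m n : ℕ, m.Coprime n → coeff f (m * n) = coeff f m * coeff f n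
  hecke : ∀ p r : ℕ, p.Prime → p ≠ N →
    coeff f (p ^ (r + 2)) = coeff f p * coeff f (p ^ (r + 1)) - (p : ℂ) * coeff f (p ^ r)
  level : ∀ r : ℕ, coeff f (N ^ (r + 1)) = coeff f N ^ (r + 1)

/-- The L-function `∑ a(n) n^{-s}` (Mathlib's entire continuation), classical normalisation: the
centre is `s = 1`, and `L(1/2, f)` in the analytic normalisation is `L f 1`. -/
noncomputable def L {N : ℕ} [Fact N.Prime] (f : S2 N) (s : ℂ) : ℂ :=
  ModularForm.L (k := 2) two_pos f s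

/-- The completed L-function has the functional equation with sign `+1`. -/
def EvenFE {N : ℕ} [Fact N.Prime] (f : S2 N) : Prop := ∀ s : ℂ, 0 < s.re → s.re < 2 →
  ((Real.sqrt N / (2 * Real.pi) : ℝ) : ℂ) ^ s * Complex.Gamma s * L f s =
    ((Real.sqrt N / (2 * Real.pi) : ℝ) : ℂ) ^ (2 - s) * Complex.Gamma (2 - s) * L f (2 - s)

/-- The set `H₂⁺(N)`. -/
def H (N : ℕ) [Fact N.Prime] : Set (S2 N) := {f | IsNewform f ∧ EvenFE f}

/-- `P_t(N)`: the proportion of the `f ∈ H₂⁺(N)` with `L(1/2, f) > t`. -/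
noncomputable def P (N : ℕ) [Fact N.Prime] (t : ℝ) : ℝ :=
  ({f : S2 N | f ∈ H N ∧ t < (L f 1).re}.ncard : ℝ) / ((H N).ncard : ℝ)

/-- No real primitive character `χ` of conductor `q`, `1 < q ≤ D`, with `χ(-N) = 1` has a real zero
`β > 1 - w`. -/
def NoZero (N : ℕ) (w D : ℝ) : Prop :=
  ∀ (q : ℕ) [NeZero q], 1 < q → (q : ℝ) ≤ D → ∀ χ : DirichletCharacter ℂ q, χ.IsPrimitive →
    χ ^ 2 = 1 → χ (-(N : ZMod q)) = 1 → ∀ β : ℝ, 1 - w < β →
      DirichletCharacter.LFunction χ (β : ℂ) ≠ 0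

/-- `β < 1` is a real zero of `L(s, χ)`, `χ` a real primitive character of conductor `q > 1`. -/
structure RealZero {q : ℕ} [NeZero q] (χ : DirichletCharacter ℂ q) (β : ℝ) : Prop where
  one_lt : 1 < q
  prim : χ.IsPrimitive
  sq : χ ^ 2 = 1
  lt_one : β < 1
  zero : DirichletCharacter.LFunction χ (β : ℂ) = 0

/-- `β > 1 - κ / log N` is a real zero of the real primitive character `χ` of conductor
`q ≤ N^κ`. -/
structure Exc (κ : ℝ) (N : ℕ) {q : ℕ} [NeZero q] (χ : DirichletCharacter ℂ q) (β : ℝ) : Prop where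
  zero : RealZero χ β
  hq : (q : ℝ) ≤ (N : ℝ) ^ κ
  hβ : 1 - κ / Real.log N < β

/-- The scales: `ω` is nondecreasing on `[1, ∞)`, and `ω(x) ≥ log x`, `ω(2x) ≤ K ω(x)` there. -/
structure Scale (ω : ℝ → ℝ) : Prop where
  mono : ∀ x y : ℝ, 1 ≤ x → x ≤ y → ω x ≤ ω y
  log_le : ∀ x : ℝ, 1 ≤ x → Real.log x ≤ ω x
  doubling : ∃ K : ℝ, ∀ x : ℝ, 1 ≤ x → ω (2 * x) ≤ K * ω x

/-- `P_t(N) ≥ 1/2 + c`, `t = exp(-C ω(log N))`, for all large primes `N`. -/
def Above (ω : ℝ → ℝ) (c C : ℝ) : Prop := ∃ N₀ : ℕ, ∀ (N : ℕ) [Fact N.Prime], N₀ ≤ N →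
  1 / 2 + c ≤ P N (Real.exp (-(C * ω (Real.log N))))

/-- `1 - β ≥ exp(-C ω(log q))` for all real zeros `β` of real primitive characters of large
conductor `q`. -/
def Region (ω : ℝ → ℝ) (C : ℝ) : Prop := ∃ q₀ : ℕ, ∀ (q : ℕ) [NeZero q], q₀ ≤ q →
  ∀ (χ : DirichletCharacter ℂ q) (β : ℝ), RealZero χ β →
    Real.exp (-(C * ω (Real.log q))) ≤ 1 - β

/-- `h(K) R(K) ≥ √|d| exp(-C ω(log |d|))` for all quadratic fields `K` with large `|d|`: `d` is the
discriminant, `h` the class number and `R` the regulator (`1` if `K` is imaginary). -/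
def ClassReg (ω : ℝ → ℝ) (C : ℝ) : Prop := ∃ d₀ : ℝ, ∀ (K : Type) [Field K] [NumberField K],
  Module.finrank ℚ K = 2 → d₀ ≤ |(NumberField.discr K : ℝ)| →
  Real.sqrt |(NumberField.discr K : ℝ)| *
    Real.exp (-(C * ω (Real.log |(NumberField.discr K : ℝ)|))) ≤
    NumberField.classNumber K * NumberField.Units.regulator K

theorem H_eq (N : ℕ) [Fact N.Prime] : H N = LEV.HE N := by
  ext f
  constructor
  · rintro ⟨h, h'⟩
    exact ⟨⟨h.one, h.mul, h.hecke, h.level⟩, h'⟩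
  · rintro ⟨h, h'⟩
    exact ⟨⟨h.one, h.mul, h.hecke, h.level⟩, h'⟩

theorem P_eq (N : ℕ) [Fact N.Prime] (t : ℝ) : P N t = MED.sT N t := by
  unfold P MED.sT T12.sh
  rw [H_eq]
  rfl

theorem rz_iff {q : ℕ} [NeZero q] (χ : DirichletCharacter ℂ q) (β : ℝ) :
    RealZero χ β ↔ T12.RZ χ β := by
  constructor
  · intro h
    refine ⟨⟨h.prim, h.sq, ?_⟩, h.lt_one, h.zero⟩
    intro h3
    have h1 := h.prim
    rw [h3] at h1
    have h4 : (1 : DirichletCharacter ℂ q).conductor = q := h1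
    rw [DirichletCharacter.conductor_one] at h4
    have := h.one_lt
    omega
  · intro h
    refine ⟨?_, h.pq.prim, h.pq.sq, h.lt, h.zero⟩
    rcases Nat.lt_or_ge 1 q with h6 | h6
    · exact h6
    · exfalso
      have h7 : q = 1 := by
        have := NeZero.ne q
        omega
      subst h7
      exact h.pq.ne (Subsingleton.elim _ _)

theorem exc_iff {κ : ℝ} {N : ℕ} {q : ℕ} [NeZero q] (χ : DirichletCharacter ℂ q) (β : ℝ) :
    Exc κ N χ β ↔ T12.XZ κ N χ β := by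
  constructor
  · intro h
    exact ⟨(rz_iff χ β).1 h.zero, h.hq, h.hβ⟩
  · intro h
    exact ⟨(rz_iff χ β).2 h.rz, h.hq, h.hβ⟩

theorem scale_iff (ω : ℝ → ℝ) : Scale ω ↔ MED.Sc ω :=
  ⟨fun h => ⟨h.mono, h.log_le, h.doubling⟩, fun h => ⟨h.mono, h.log_le, h.dbl⟩⟩

theorem above_iff (ω : ℝ → ℝ) (c : ℝ) : (∃ C : ℝ, Above ω c C) ↔ MED.BW ω c := by
  unfold Above MED.BW
  simp only [P_eq]

theorem region_iff (ω : ℝ → ℝ) : (∃ C : ℝ, Region ω C) ↔ MED.ZW ω := by
  unfold Region MED.ZW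
  simp only [rz_iff]

theorem class_iff (ω : ℝ → ℝ) : (∃ C : ℝ, ClassReg ω C) ↔ MED.CW ω := Iff.rfl

theorem result : ∃ c κ : ℝ, 0 < c ∧ 0 < κ ∧
    (∀ ε : ℝ, 0 < ε → ∃ N₀ : ℕ, ∀ (N : ℕ) [Fact N.Prime], N₀ ≤ N →
      1 / 2 + c ≤ P N ((N : ℝ) ^ (-ε))) ∧
    (∀ δ : ℝ, 0 < δ → ∃ N₀ : ℕ, ∀ (N : ℕ) [Fact N.Prime], N₀ ≤ N →
      ∀ w : ℝ, 0 < w → w ≤ 1 / Real.log N → NoZero N w ((N : ℝ) ^ κ) →
        1 / 2 + c ≤ P N (w * Real.log N ^ (1 / 2 - δ))) ∧
    (∀ ε : ℝ, 0 < ε → ∃ κ' : ℝ, 0 < κ' ∧ ∀ δ : ℝ, 0 < δ → ∃ N₀ : ℕ,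
      ∀ (N : ℕ) [Fact N.Prime], N₀ ≤ N →
      ∀ (q : ℕ) [NeZero q] (χ : DirichletCharacter ℂ q) (β : ℝ), Exc κ' N χ β →
        χ (-(N : ZMod q)) = 1 →
        P N ((1 - β) * Real.log N ^ (1 / 2 + δ)) ≤ 1 / 2 + ε ∧
        3 / 5 - ε ≤ P N ((1 - β) * Real.log N ^ (1 / 2 - δ))) ∧
    (∀ ω : ℝ → ℝ, Scale ω → ∀ c' : ℝ, 0 < c' → c' ≤ c →
      ((∃ C : ℝ, Above ω c' C) ↔ ∃ C : ℝ, Region ω C) ∧
      ((∃ C : ℝ, Above ω c' C) ↔ ∃ C : ℝ, ClassReg ω C)) := by
  obtain ⟨c, κ, hc, hκ, hκ2, hL⟩ := MED.med_low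
  refine ⟨c, κ, hc, hκ, fun ε hε => ?_, fun δ hδ => ?_, fun ε hε => ?_, fun ω hω c' hc' hcc => ?_⟩
  · obtain ⟨N₀, h⟩ := MED.med_siegel hL hκ2 ε hε
    refine ⟨N₀, fun N _ hN => ?_⟩
    rw [P_eq]
    exact h N hN
  · obtain ⟨N₀, h⟩ := hL δ hδ
    refine ⟨N₀, fun N _ hN w hw hw1 hz => ?_⟩
    rw [P_eq]
    refine h N hN w hw hw1 fun q _ χ β hr hq hs => ?_
    have hr' := (rz_iff χ β).2 hr
    by_contra hcon
    push Not at hcon
    exact hz q hr'.one_lt hq χ hr'.prim hr'.sq hs β (by linarith) hr'.zero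
  · obtain ⟨κ₁, hκ₁, h1⟩ := MED.med_up ε hε
    obtain ⟨κ₂, hκ₂, h2⟩ := MED.med_three ε hε
    refine ⟨min κ₁ κ₂, lt_min hκ₁ hκ₂, fun δ hδ => ?_⟩
    obtain ⟨N₁, h1⟩ := h1 δ hδ
    obtain ⟨N₂, h2⟩ := h2 δ hδ
    refine ⟨N₁ + N₂ + 3, fun N _ hN q _ χ β hx hs => ?_⟩
    have hx' := (exc_iff χ β).1 hx
    rw [P_eq, P_eq]
    exact ⟨h1 N (by omega) q χ β (hx'.mono (min_le_left _ _) (by omega)) hs,
      h2 N (by omega) q χ β (hx'.mono (min_le_right _ _) (by omega)) hs⟩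
  · have hω' := (scale_iff ω).1 hω
    have h1 : MED.BW ω c' ↔ MED.ZW ω := by
      refine ⟨MED.zw_of_bw hω' hc', fun h => ?_⟩
      obtain ⟨C, N₀, h⟩ := MED.bw_of_zw hL hκ2 hω' h
      refine ⟨C, N₀, fun N _ hN => ?_⟩
      have := h N hN
      linarith
    rw [above_iff, region_iff, class_iff]
    exact ⟨h1, h1.trans ((MED.zw_iff_lw hω').trans (MED.lw_iff_cw hω'))⟩

end Pool.Agent.Results.MP_cc4f83_nt.CentralMedianLaw
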