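import Pool.Agent.Lib_helper82.T12.Main

/-!
# The exact critical exponent for large central values of weight two newforms of prime level

Let `N` be a prime and `H₂⁺(N)` the set of normalised Hecke eigen-newforms `f` of weight `2` for
`Γ₀(N)` with even functional equation, counted with natural (equal) weights, and `p_A(N)` the
proportion of the `f ∈ H₂⁺(N)` with `L(1/2, f) > (log N)^{-A}`.

* Q1 holds if and only if `|L(1, χ)| ≥ c (log q)^{-B}` for some `B` and all real primitive `χ`, if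
  and only if `h(K) R(K) ≥ c √|d| (log |d|)^{-B}` for some `B` and all quadratic fields `K`.
* `p_A(N) → 0` for `A < 1/2`; `p_A(N) ≥ 1/2 - o(1)` for `A > 1/2`, and then the lower limit of
  `p_A` is decided by the zero-free region `1 - β ≥ (log q)^{-(A + 1/2)}` for real primitive
  characters, up to `δ` in the exponent: it is exactly `1/2` if the region with `A + 1/2 + δ` fails,
  and at least `1/2 + c`, `c` absolute, if the region with `A + 1/2 - δ` holds.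
* Unconditionally, for every `A > 1/2` and `δ > 0`, `p_A(N) ≥ 1/2 + c` for all primes `N` of
  arbitrarily long windows `Y ≤ N ≤ exp((log Y)^{A + 1/2 - δ})`.
* All this comes from a law at EVERY level `N`, `A > 1/2`.  If there is no exceptional zero (a real
  zero `β > 1 - κ / log N` of a real primitive character `χ` of conductor at most `N^κ`), then
  `p_A(N) ≥ 1/2 + c`.  If there is one and `χ(-N) = -1`, almost all central values are large; if
  `χ(-N) = 1`, exactly half of them are large if `1 - β` is below `(log N)^{-(A + 1/2)}`, and at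
  least three fifths if it is above.

Authors of the blocks (team): see `Lib_helper82/T12`, `Lib_helper41/TK`, `Lib_helper15/TEM`,
`Lib_helper84/TU`, `Lib_helper68/TKS`, `Lib_helper82/CN` and the libraries of the other hand-ins
for this problem.
-/

namespace Pool.Agent.Results.MP_cc4f83_nt.CriticalExponent

open Complex
open scoped MatrixGroups

/-- The space of cusp forms of weight `2` for `Γ₀(N)`. -/
abbrev S2 (N : ℕ) : Type :=
  CuspForm (CongruenceSubgroup.Gamma0 N : Subgroup (GL (Fin 2) ℝ)) 2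

/-- The Fourier coefficients `a(n)`, `f(z) = ∑ a(n) e^{2πinz}`. -/
noncomputable def coeff {N : ℕ} (f : S2 N) (n : ℕ) : ℂ := (UpperHalfPlane.qExpansion 1 f).coeff n

/-- `f` is a normalised Hecke eigen-newform of prime level `N` and weight `2`: `a(1) = 1` and the
coefficients satisfy all Hecke relations.  (All forms of prime level and weight `2` are new.) -/
structure IsNewform {N : ℕ} (f : S2 N) : Prop where
  one : coeff f 1 = 1
  mul : ∀ m n : ℕ, m.Coprime n → coeff f (m * n) = coeff f m * coeff f n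
  hecke : ∀ p r : ℕ, p.Prime → p ≠ N →
    coeff f (p ^ (r + 2)) = coeff f p * coeff f (p ^ (r + 1)) - (p : ℂ) * coeff f (p ^ r)
  level : ∀ r : ℕ, coeff f (N ^ (r + 1)) = coeff f N ^ (r + 1)

/-- The L-function `∑ a(n) n^{-s}` (Mathlib's entire continuation), classical normalisation: the
centre is `s = 1`, and `L(1/2, f)` in the analytic normalisation is `L f 1`. -/
noncomputable def L {N : ℕ} [Fact N.Prime] (f : S2 N) (s : ℂ) : ℂ :=
  ModularForm.L (k := 2) two_pos f s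

/-- The completed L-function has the functional equation with sign `+1`. -/
def EvenFE {N : ℕ} [Fact N.Prime] (f : S2 N) : Prop := ∀ s : ℂ, 0 < s.re → s.re < 2 →
  ((Real.sqrt N / (2 * Real.pi) : ℝ) : ℂ) ^ s * Complex.Gamma s * L f s =
    ((Real.sqrt N / (2 * Real.pi) : ℝ) : ℂ) ^ (2 - s) * Complex.Gamma (2 - s) * L f (2 - s)

/-- The set `H₂⁺(N)`. -/
def H (N : ℕ) [Fact N.Prime] : Set (S2 N) := {f | IsNewform f ∧ EvenFE f}

/-- The proportion of the `f ∈ H₂⁺(N)` with the property `P`. -/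
noncomputable def prop (N : ℕ) [Fact N.Prime] (P : S2 N → Prop) : ℝ :=
  ({f : S2 N | f ∈ H N ∧ P f}.ncard : ℝ) / ((H N).ncard : ℝ)

/-- `p_A(N)`: the proportion of the `f ∈ H₂⁺(N)` with `L(1/2, f) > (log N)^{-A}`. -/
noncomputable def pA (A : ℝ) (N : ℕ) [Fact N.Prime] : ℝ :=
  prop N fun f => Real.log N ^ (-A) < (L f 1).re

/-- `liminf p_A(N)`, `N → ∞` through the primes. -/
noncomputable def liminfP (A : ℝ) : ℝ :=
  Filter.liminf (fun N : ℕ => if h : N.Prime then @pA A N ⟨h⟩ else 0)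
    (Filter.atTop ⊓ Filter.principal {N : ℕ | N.Prime})

/-- `β < 1` is a real zero of `L(s, χ)`, `χ` a real primitive character of conductor `q > 1`. -/
structure RealZero {q : ℕ} [NeZero q] (χ : DirichletCharacter ℂ q) (β : ℝ) : Prop where
  one_lt : 1 < q
  prim : χ.IsPrimitive
  sq : χ ^ 2 = 1
  lt_one : β < 1
  zero : DirichletCharacter.LFunction χ (β : ℂ) = 0

/-- `1 - β ≥ (log q)^{-B}` for all real zeros `β` of real primitive characters of large
conductor `q`. -/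
def Region (B : ℝ) : Prop := ∃ q₀ : ℕ, ∀ (q : ℕ) [NeZero q], q₀ ≤ q →
  ∀ (χ : DirichletCharacter ℂ q) (β : ℝ), RealZero χ β → Real.log q ^ (-B) ≤ 1 - β

/-- `|L(1, χ)| ≥ c (log q)^{-B}` for all real primitive characters of conductor `q > 1`. -/
def LOne (B : ℝ) : Prop := ∃ c : ℝ, 0 < c ∧ ∀ (q : ℕ) [NeZero q], 1 < q →
  ∀ χ : DirichletCharacter ℂ q, χ.IsPrimitive → χ ^ 2 = 1 →
  c * Real.log q ^ (-B) ≤ ‖DirichletCharacter.LFunction χ 1‖

/-- `h(K) R(K) ≥ c √|d| (log |d|)^{-B}` for all quadratic fields `K`: `d` is the discriminant, `h`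
the class number and `R` the regulator (`1` if `K` is imaginary). -/
def ClassReg (B : ℝ) : Prop := ∃ c : ℝ, 0 < c ∧ ∀ (K : Type) [Field K] [NumberField K],
  Module.finrank ℚ K = 2 →
  c * Real.sqrt |(NumberField.discr K : ℝ)| * Real.log |(NumberField.discr K : ℝ)| ^ (-B) ≤
    NumberField.classNumber K * NumberField.Units.regulator K

/-- `β > 1 - κ / log N` is a real zero of the real primitive character `χ` of conductor
`q ≤ N^κ`. -/
structure Exc (κ : ℝ) (N : ℕ) {q : ℕ} [NeZero q] (χ : DirichletCharacter ℂ q) (β : ℝ) : Prop where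
  zero : RealZero χ β
  hq : (q : ℝ) ≤ (N : ℝ) ^ κ
  hβ : 1 - κ / Real.log N < β

/-- The law of `p_A(N)`, `A > 1/2`, at every large level `N`: first the levels without an
exceptional zero, then those with one. -/
def LevelLaw : Prop :=
  (∀ κ : ℝ, 0 < κ → ∃ c : ℝ, 0 < c ∧ ∀ A : ℝ, 1 / 2 < A → ∃ N₀ : ℕ,
    ∀ (N : ℕ) [Fact N.Prime], N₀ ≤ N →
    (∀ (q : ℕ) [NeZero q] (χ : DirichletCharacter ℂ q) (β : ℝ), ¬ Exc κ N χ β) →
      1 / 2 + c ≤ pA A N) ∧
  (∀ ε : ℝ, 0 < ε → ∃ κ : ℝ, 0 < κ ∧ ∀ A δ : ℝ, 1 / 2 < A → 0 < δ → ∃ N₀ : ℕ,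
    ∀ (N : ℕ) [Fact N.Prime], N₀ ≤ N →
    ∀ (q : ℕ) [NeZero q] (χ : DirichletCharacter ℂ q) (β : ℝ), Exc κ N χ β →
      (χ (-(N : ZMod q)) = -1 → 1 - ε ≤ pA A N) ∧
      (χ (-(N : ZMod q)) = 1 → 1 - β ≤ Real.log N ^ (-(A + 1 / 2) - δ) →
        |pA A N - 1 / 2| ≤ ε) ∧
      (χ (-(N : ZMod q)) = 1 → Real.log N ^ (-(A + 1 / 2) + δ) ≤ 1 - β → 3 / 5 - ε ≤ pA A N))

theorem H_eq (N : ℕ) [Fact N.Prime] : H N = LEV.HE N := by
  ext f
  constructor
  · rintro ⟨h, h'⟩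
    exact ⟨⟨h.one, h.mul, h.hecke, h.level⟩, h'⟩
  · rintro ⟨h, h'⟩
    exact ⟨⟨h.one, h.mul, h.hecke, h.level⟩, h'⟩

theorem prop_eq (N : ℕ) [Fact N.Prime] (P : S2 N → Prop) : prop N P = T12.sh N P := by
  unfold prop T12.sh
  rw [H_eq]

theorem pA_eq (A : ℝ) (N : ℕ) [Fact N.Prime] : pA A N = T12.rA A N := prop_eq N _

theorem liminfP_eq (A : ℝ) : liminfP A = T12.lim (T12.rA A) := by
  unfold liminfP T12.lim
  congr 1
  funext N
  unfold T12.tot
  split_ifs with h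
  · exact @pA_eq A N ⟨h⟩
  · rfl

theorem rz_iff {q : ℕ} [NeZero q] (χ : DirichletCharacter ℂ q) (β : ℝ) :
    RealZero χ β ↔ T12.RZ χ β := by
  constructor
  · intro h
    refine ⟨⟨h.prim, h.sq, ?_⟩, h.lt_one, h.zero⟩
    intro h3
    have h1 := h.prim
    rw [h3] at h1
    have h4 : (1 : DirichletCharacter ℂ q).conductor = q := h1
    rw [DirichletCharacter.conductor_one] at h4
    have := h.one_lt
    omega
  · intro h
    refine ⟨?_, h.pq.prim, h.pq.sq, h.lt, h.zero⟩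
    rcases Nat.lt_or_ge 1 q with h6 | h6
    · exact h6
    · exfalso
      have h7 : q = 1 := by
        have := NeZero.ne q
        omega
      subst h7
      exact h.pq.ne (Subsingleton.elim _ _)

theorem pq_iff {q : ℕ} [NeZero q] (χ : DirichletCharacter ℂ q) :
    (1 < q ∧ χ.IsPrimitive ∧ χ ^ 2 = 1) ↔ LK.PQ χ := by
  constructor
  · rintro ⟨h1, h2, h3⟩
    refine ⟨h2, h3, ?_⟩
    intro h4
    rw [h4] at h2
    have h5 : (1 : DirichletCharacter ℂ q).conductor = q := h2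
    rw [DirichletCharacter.conductor_one] at h5
    omega
  · intro h
    refine ⟨?_, h.prim, h.sq⟩
    rcases Nat.lt_or_ge 1 q with h6 | h6
    · exact h6
    · exfalso
      have h7 : q = 1 := by
        have := NeZero.ne q
        omega
      subst h7
      exact h.ne (Subsingleton.elim _ _)

theorem exc_iff {κ : ℝ} {N : ℕ} {q : ℕ} [NeZero q] (χ : DirichletCharacter ℂ q) (β : ℝ) :
    Exc κ N χ β ↔ T12.XZ κ N χ β := by
  constructor
  · intro h
    exact ⟨(rz_iff χ β).1 h.zero, h.hq, h.hβ⟩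
  · intro h
    exact ⟨(rz_iff χ β).2 h.rz, h.hq, h.hβ⟩

theorem region_iff (B : ℝ) : Region B ↔ T12.ZB T12.Any B := by
  unfold Region T12.ZB
  constructor
  · rintro ⟨q₀, h⟩
    exact ⟨q₀, fun q _ hq χ β hz _ => h q hq χ β ((rz_iff χ β).2 hz)⟩
  · rintro ⟨q₀, h⟩
    exact ⟨q₀, fun q _ hq χ β hz => h q hq χ β ((rz_iff χ β).1 hz) trivial⟩

theorem lone_iff (B : ℝ) : LOne B ↔ T12.LB T12.Any B := by
  unfold LOne T12.LB
  constructor
  · rintro ⟨c, hc, h⟩
    refine ⟨c, hc, fun q _ χ hχ _ => ?_⟩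
    obtain ⟨h1, h2, h3⟩ := (pq_iff χ).2 hχ
    exact h q h1 χ h2 h3
  · rintro ⟨c, hc, h⟩
    exact ⟨c, hc, fun q _ hq χ h1 h2 => h q χ ((pq_iff χ).1 ⟨hq, h1, h2⟩) trivial⟩

theorem levelLaw : LevelLaw := by
  refine ⟨fun κ hκ => ?_, fun ε hε => ?_⟩
  · obtain ⟨c, hc, h⟩ := T12.rA_laws.l0 κ hκ
    refine ⟨c, hc, fun A hA => ?_⟩
    obtain ⟨N₀, h⟩ := h A hA
    refine ⟨N₀, fun N _ hN hx => ?_⟩
    rw [pA_eq]
    exact h N hN fun q _ χ β h1 => hx q χ β ((exc_iff χ β).2 h1)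
  · obtain ⟨κ₁, hκ₁, h1⟩ := T12.rA_laws.lm ε hε
    obtain ⟨κ₂, hκ₂, h2⟩ := T12.rA_laws.lls ε hε
    obtain ⟨κ₃, hκ₃, h3⟩ := T12.rA_laws.lhs ε hε
    refine ⟨min κ₁ (min κ₂ κ₃), by positivity, fun A δ hA hδ => ?_⟩
    obtain ⟨N₁, h1⟩ := h1 A hA
    obtain ⟨N₂, h2⟩ := h2 A δ hA hδ
    obtain ⟨N₃, h3⟩ := h3 A δ hA hδ
    refine ⟨N₁ + N₂ + N₃ + 3, fun N _ hN q _ χ β hx => ?_⟩
    have hm : ∀ κ', min κ₁ (min κ₂ κ₃) ≤ κ' → T12.XZ κ' N χ β := by
      intro κ' hκ'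
      have h4 := (exc_iff χ β).1 hx
      have h5 : (3 : ℝ) ≤ N := by exact_mod_cast (by omega : 3 ≤ N)
      have h6 : 0 < Real.log N := Real.log_pos (by linarith)
      refine ⟨h4.rz, h4.hq.trans (Real.rpow_le_rpow_of_exponent_le (by linarith) hκ'),
        lt_of_le_of_lt ?_ h4.hβ⟩
      have h7 : min κ₁ (min κ₂ κ₃) / Real.log N ≤ κ' / Real.log N :=
        div_le_div_of_nonneg_right hκ' h6.le
      linarith
    rw [pA_eq]
    exact ⟨h1 N (by omega) q χ β (hm _ (min_le_left _ _)),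
      h2 N (by omega) q χ β (hm _ ((min_le_right _ _).trans (min_le_left _ _))),
      h3 N (by omega) q χ β (hm _ ((min_le_right _ _).trans (min_le_right _ _)))⟩

theorem result :
    ((∃ A : ℝ, 0 < A ∧ 1 / 2 < liminfP A) ↔ ∃ B : ℝ, LOne B) ∧
    ((∃ A : ℝ, 0 < A ∧ 1 / 2 < liminfP A) ↔ ∃ B : ℝ, ClassReg B) ∧
    (∀ A ε : ℝ, A < 1 / 2 → 0 < ε → ∃ N₀ : ℕ, ∀ (N : ℕ) [Fact N.Prime], N₀ ≤ N →
      pA A N ≤ ε) ∧
    (∀ A ε : ℝ, 1 / 2 < A → 0 < ε → ∃ N₀ : ℕ, ∀ (N : ℕ) [Fact N.Prime], N₀ ≤ N →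
      1 / 2 - ε ≤ pA A N) ∧
    (∀ A δ : ℝ, 1 / 2 < A → 0 < δ → ¬ Region (A + 1 / 2 + δ) → liminfP A = 1 / 2) ∧
    (∃ c : ℝ, 0 < c ∧
      (∀ A δ : ℝ, 1 / 2 < A → 0 < δ → Region (A + 1 / 2 - δ) → 1 / 2 + c ≤ liminfP A) ∧
      (∀ A δ : ℝ, 1 / 2 < A → 0 < δ → ∀ Y₀ : ℝ, ∃ Y : ℝ, Y₀ ≤ Y ∧ ∀ (N : ℕ) [Fact N.Prime],
        Y ≤ N → Real.log N ≤ Real.log Y ^ (A + 1 / 2 - δ) → 1 / 2 + c ≤ pA A N)) ∧
    LevelLaw := by
  obtain ⟨-, m2, ⟨c, hc, m3⟩, m4⟩ := T12.main_lim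
  obtain ⟨c', hc', m5⟩ := T12.rA_laws.c5s
  refine ⟨?_, ?_, fun A ε hA hε => ?_, fun A ε hA hε => ?_, fun A δ hA hδ hr => ?_,
    ⟨min c c', lt_min hc hc', fun A δ hA hδ hr => ?_, fun A δ hA hδ Y₀ => ?_⟩,
    levelLaw⟩
  · simp only [liminfP_eq, lone_iff]
    exact m4
  · simp only [liminfP_eq]
    exact T12.main_cl
  · simp only [pA_eq]
    exact T12.rA_low A hA ε hε
  · simp only [pA_eq]
    exact T12.rA_half A hA ε hε
  · rw [liminfP_eq]
    exact m2 A δ hA hδ fun h => hr ((region_iff _).2 h)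
  · rw [liminfP_eq]
    have h2 := m3 A δ hA hδ ((region_iff _).1 hr)
    have h3 := min_le_left c c'
    linarith
  · obtain ⟨Y, hY, h2⟩ := m5 A δ hA hδ Y₀
    refine ⟨Y, hY, fun N _ hN hl => ?_⟩
    have h3 := min_le_right c c'
    have h5 := h2 N hN hl
    rw [pA_eq]
    linarith

end Pool.Agent.Results.MP_cc4f83_nt.CriticalExponent
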