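import Pool.Agent.Lib_helper9.AAS.KL

/-!
# The Keating-Snaith law for weight two newforms of prime level, Siegel zeros and class numbers

Let `N` be a prime and `H₂⁺(N)` the set of normalised Hecke eigen-newforms `f` of weight `2` for
`Γ₀(N)` with even functional equation, counted with natural (equal) weights.  Keating and Snaith
conjecture that `(log L(1/2, f) + (1/2) log log N) / √(log log N)` is asymptotically normal, that is
`P_V(N) → P(Z ≥ V)` for every real `V`, where `P_V(N)` is the proportion of the `f ∈ H₂⁺(N)` with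
`L(1/2, f) ≥ (log N)^{-1/2} exp(V √(log log N))` and `Z` is standard normal.

* At all levels `P(Z ≥ V) / 2 - o(1) ≤ P_V(N) ≤ P(Z ≥ V) + o(1)`.
* At the levels `N` without an exceptional zero (a real zero `β > 1 - κ / log N` of a real primitive
  character `χ` of conductor at most `N^κ`) `P_V(N) ≥ (1/2 + c) P(Z ≥ V) - o(1)`.
* At the levels with an exceptional zero and `χ(-N) = -1` the full Keating-Snaith law holds.
* At the levels with an exceptional zero, `χ(-N) = 1` and `1 - β ≤ (log N)^{-1-δ}`, exactly half of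
  it holds: `P_V(N) = P(Z ≥ V) / 2 + o(1)`; the other half of the mass is at `-∞`.
* The exact strength of the law: if `liminf P_V(N) > P(Z ≥ V) / 2` for one `V`, then
  `1 - β ≥ (log q)^{-1-δ}` for the real zeros of real primitive characters, every `δ > 0`; if there
  are no Siegel zeros, then `liminf P_V(N) ≥ (1/2 + c) P(Z ≥ V)` for all `V`.
* If, for one `V`, `P_V(N) ≥ (1/2 + c) P(Z ≥ V)` at a positive proportion (lower density) of the
  prime levels, then `h(K) ≥ b √|d| (log |d|)^{-1-δ}` for all imaginary quadratic fields; otherwise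
  half of the law holds on a set of levels of relative upper density `1`.

Authors of the blocks (team): helper9 (`Lib_helper9/AAS`, the last two parts); see `Lib_helper82/T12`, `Lib_helper68/KSLF`, `Lib_helper68/TKS`,
`Lib_helper41/TK`, `Lib_helper15/TEM`, `Lib_helper84/TU` and the libraries of the other hand-ins for
this problem.
-/

namespace Pool.Agent.Results.MP_cc4f83_nt.KeatingSnaithSiegel

open Complex MeasureTheory ProbabilityTheory Filter Topology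
open scoped MatrixGroups

/-- The space of cusp forms of weight `2` for `Γ₀(N)`. -/
abbrev S2 (N : ℕ) : Type :=
  CuspForm (CongruenceSubgroup.Gamma0 N : Subgroup (GL (Fin 2) ℝ)) 2

/-- The Fourier coefficients `a(n)`, `f(z) = ∑ a(n) e^{2πinz}`. -/
noncomputable def coeff {N : ℕ} (f : S2 N) (n : ℕ) : ℂ := (UpperHalfPlane.qExpansion 1 f).coeff n

/-- `f` is a normalised Hecke eigen-newform of prime level `N` and weight `2`: `a(1) = 1` and the
coefficients satisfy all Hecke relations.  (All forms of prime level and weight `2` are new.) -/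
structure IsNewform {N : ℕ} (f : S2 N) : Prop where
  one : coeff f 1 = 1
  mul : ∀ m n : ℕ, m.Coprime n → coeff f (m * n) = coeff f m * coeff f n
  hecke : ∀ p r : ℕ, p.Prime → p ≠ N →
    coeff f (p ^ (r + 2)) = coeff f p * coeff f (p ^ (r + 1)) - (p : ℂ) * coeff f (p ^ r)
  level : ∀ r : ℕ, coeff f (N ^ (r + 1)) = coeff f N ^ (r + 1)

/-- The L-function `∑ a(n) n^{-s}` (Mathlib's entire continuation), classical normalisation: the
centre is `s = 1`, and `L(1/2, f)` in the analytic normalisation is `L f 1`. -/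
noncomputable def L {N : ℕ} [Fact N.Prime] (f : S2 N) (s : ℂ) : ℂ :=
  ModularForm.L (k := 2) two_pos f s

/-- The completed L-function has the functional equation with sign `+1`. -/
def EvenFE {N : ℕ} [Fact N.Prime] (f : S2 N) : Prop := ∀ s : ℂ, 0 < s.re → s.re < 2 →
  ((Real.sqrt N / (2 * Real.pi) : ℝ) : ℂ) ^ s * Complex.Gamma s * L f s =
    ((Real.sqrt N / (2 * Real.pi) : ℝ) : ℂ) ^ (2 - s) * Complex.Gamma (2 - s) * L f (2 - s)

/-- The set `H₂⁺(N)`. -/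
def H (N : ℕ) [Fact N.Prime] : Set (S2 N) := {f | IsNewform f ∧ EvenFE f}

/-- `P_V(N)`: the proportion of the `f ∈ H₂⁺(N)` with
`L(1/2, f) ≥ (log N)^{-1/2} exp(V √(log log N))`. -/
noncomputable def pV (V : ℝ) (N : ℕ) [Fact N.Prime] : ℝ :=
  ({f : S2 N | f ∈ H N ∧ Real.log N ^ (-(1 / 2) : ℝ) *
    Real.exp (V * Real.sqrt (Real.log (Real.log N))) ≤ (L f 1).re}.ncard : ℝ) / ((H N).ncard : ℝ)

/-- `P(Z ≥ V)` for a standard normal variable `Z`. -/
noncomputable def normal (V : ℝ) : ℝ := (gaussianReal 0 1).real (Set.Ici V)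

/-- `χ` is a real primitive character of conductor `q`, `1 < q ≤ N^κ`, with a real zero
`β`, `1 - κ / log N < β < 1`. -/
structure Exc (κ : ℝ) (N : ℕ) {q : ℕ} [NeZero q] (χ : DirichletCharacter ℂ q) (β : ℝ) : Prop where
  one_lt : 1 < q
  prim : χ.IsPrimitive
  sq : χ ^ 2 = 1
  lt_one : β < 1
  zero : DirichletCharacter.LFunction χ (β : ℂ) = 0
  hq : (q : ℝ) ≤ (N : ℝ) ^ κ
  hβ : 1 - κ / Real.log N < β

/-- `β < 1` is a real zero of `L(s, χ)`, `χ` a real primitive character of conductor `q > 1`. -/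
structure RealZero {q : ℕ} [NeZero q] (χ : DirichletCharacter ℂ q) (β : ℝ) : Prop where
  one_lt : 1 < q
  prim : χ.IsPrimitive
  sq : χ ^ 2 = 1
  lt_one : β < 1
  zero : DirichletCharacter.LFunction χ (β : ℂ) = 0

/-- `1 - β ≥ (log q)^{-B}` for all real zeros `β` of real primitive characters of large
conductor `q`. -/
def Region (B : ℝ) : Prop := ∃ q₀ : ℕ, ∀ (q : ℕ) [NeZero q], q₀ ≤ q →
  ∀ (χ : DirichletCharacter ℂ q) (β : ℝ), RealZero χ β → Real.log q ^ (-B) ≤ 1 - β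

/-- `1 - β ≥ (log q)^{-B}` for all real zeros `β` of odd real primitive characters of large
conductor `q`. -/
def RegionOdd (B : ℝ) : Prop := ∃ q₀ : ℕ, ∀ (q : ℕ) [NeZero q], q₀ ≤ q →
  ∀ (χ : DirichletCharacter ℂ q) (β : ℝ), RealZero χ β → χ.Odd → Real.log q ^ (-B) ≤ 1 - β

/-- There are no Siegel zeros: `1 - β ≥ k / log q` for all real zeros `β` of real primitive
characters of conductor `q`. -/
def NoSiegelZeros : Prop := ∃ k : ℝ, 0 < k ∧ ∀ (q : ℕ) [NeZero q]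
  (χ : DirichletCharacter ℂ q) (β : ℝ), RealZero χ β → k / Real.log q ≤ 1 - β

/-- `h(K) ≥ b √|d| (log |d|)^{-B}` for all imaginary quadratic fields `K`: `d` is the discriminant
and `h` the class number. -/
def ClassIm (B : ℝ) : Prop := ∃ b : ℝ, 0 < b ∧ ∀ (K : Type) [Field K] [NumberField K],
  Module.finrank ℚ K = 2 → NumberField.discr K < 0 →
  b * Real.sqrt |(NumberField.discr K : ℝ)| * Real.log |(NumberField.discr K : ℝ)| ^ (-B) ≤
    NumberField.classNumber K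

/-- The share of the primes `N ≤ X` with `Q N` among all primes `N ≤ X`. -/
noncomputable def share (Q : ℕ → Prop) (X : ℕ) : ℝ :=
  ({N : ℕ | N ≤ X ∧ N.Prime ∧ Q N}.ncard : ℝ) / ({N : ℕ | N ≤ X ∧ N.Prime}.ncard : ℝ)

/-- The primes `N` with `Q N` have positive relative lower density. -/
def PosLower (Q : ℕ → Prop) : Prop := ∃ η : ℝ, 0 < η ∧ ∀ᶠ X : ℕ in atTop, η ≤ share Q X

/-- The primes `N` with `Q N` have relative upper density `1`. -/
def UpperOne (Q : ℕ → Prop) : Prop :=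
  ∀ η : ℝ, 0 < η → ∃ᶠ X : ℕ in atTop, 1 - η ≤ share Q X

theorem H_eq (N : ℕ) [Fact N.Prime] : H N = LEV.HE N := by
  ext f
  constructor
  · rintro ⟨h, h'⟩
    exact ⟨⟨h.one, h.mul, h.hecke, h.level⟩, h'⟩
  · rintro ⟨h, h'⟩
    exact ⟨⟨h.one, h.mul, h.hecke, h.level⟩, h'⟩

theorem pV_eq (V : ℝ) (N : ℕ) [Fact N.Prime] : pV V N = AAS.kV V N := by
  unfold pV AAS.kV T12.sh
  rw [H_eq]
  rfl

theorem normal_eq (V : ℝ) : normal V = AAS.gV V := rfl

theorem exc_iff {κ : ℝ} {N : ℕ} {q : ℕ} [NeZero q] (χ : DirichletCharacter ℂ q) (β : ℝ) :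
    Exc κ N χ β ↔ T12.XZ κ N χ β := by
  constructor
  · intro h
    refine ⟨⟨⟨h.prim, h.sq, ?_⟩, h.lt_one, h.zero⟩, h.hq, h.hβ⟩
    intro h3
    have h1 := h.prim
    rw [h3] at h1
    have h4 : (1 : DirichletCharacter ℂ q).conductor = q := h1
    rw [DirichletCharacter.conductor_one] at h4
    have := h.one_lt
    omega
  · intro h
    refine ⟨?_, h.rz.pq.prim, h.rz.pq.sq, h.rz.lt, h.rz.zero, h.hq, h.hβ⟩
    rcases Nat.lt_or_ge 1 q with h6 | h6
    · exact h6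
    · exfalso
      have h7 : q = 1 := by
        have := NeZero.ne q
        omega
      subst h7
      exact h.rz.pq.ne (Subsingleton.elim _ _)

theorem exc_mono {κ κ' : ℝ} (hκ : κ ≤ κ') {N : ℕ} (hN : 3 ≤ N) {q : ℕ} [NeZero q]
    {χ : DirichletCharacter ℂ q} {β : ℝ} (h : T12.XZ κ N χ β) : T12.XZ κ' N χ β := by
  have h5 : (3 : ℝ) ≤ N := by exact_mod_cast hN
  have h6 : 0 < Real.log N := Real.log_pos (by linarith)
  refine ⟨h.rz, h.hq.trans (Real.rpow_le_rpow_of_exponent_le (by linarith) hκ),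
    lt_of_le_of_lt ?_ h.hβ⟩
  have h7 : κ / Real.log N ≤ κ' / Real.log N := div_le_div_of_nonneg_right hκ h6.le
  linarith

theorem rz_iff {q : ℕ} [NeZero q] (χ : DirichletCharacter ℂ q) (β : ℝ) :
    RealZero χ β ↔ T12.RZ χ β := by
  constructor
  · intro h
    refine ⟨⟨h.prim, h.sq, ?_⟩, h.lt_one, h.zero⟩
    intro h3
    have h1 := h.prim
    rw [h3] at h1
    have h4 : (1 : DirichletCharacter ℂ q).conductor = q := h1
    rw [DirichletCharacter.conductor_one] at h4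
    have := h.one_lt
    omega
  · intro h
    refine ⟨?_, h.pq.prim, h.pq.sq, h.lt, h.zero⟩
    rcases Nat.lt_or_ge 1 q with h6 | h6
    · exact h6
    · exfalso
      have h7 : q = 1 := by
        have := NeZero.ne q
        omega
      subst h7
      exact h.pq.ne (Subsingleton.elim _ _)

theorem region_iff (B : ℝ) : Region B ↔ T12.ZB T12.Any B := by
  unfold Region T12.ZB T12.Any
  simp only [rz_iff, forall_true_left]

theorem regionOdd_iff (B : ℝ) : RegionOdd B ↔ T12.ZB (fun χ => χ.Odd) B := by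
  unfold RegionOdd T12.ZB
  simp only [rz_iff]

theorem classIm_of {B : ℝ} (hB : 1 ≤ B) (h : T12.ZB (fun χ => χ.Odd) B) : ClassIm B :=
  (CN.clI_iff B).2 (AAS.zb_lb hB h)

theorem posLower_cp {Q : ℕ → Prop} (h : PosLower Q) : ∃ η : ℝ, 0 < η ∧ ∃ X₀ : ℕ, ∀ X : ℕ,
    X₀ ≤ X → η * T12.pix X ≤ T12.cp Q X := by
  obtain ⟨η, hη, h⟩ := h
  obtain ⟨X₀, h⟩ := eventually_atTop.1 h
  refine ⟨η, hη, X₀ + 2, fun X hX => ?_⟩
  have h1 := h X (by omega)
  have h2 := T12.pix_pos (show 2 ≤ X by omega)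
  have h3 : share Q X = T12.share Q X := rfl
  rw [h3, T12.share_eq (by omega)] at h1
  have h4 := T12.cp_compl Q X
  have h5 : T12.cp (fun n => ¬ Q n) X ≤ (1 - η) * T12.pix X := by
    rw [← div_le_iff₀ h2]
    linarith
  linarith

theorem result :
    (∀ V ε : ℝ, 0 < ε → ∃ N₀ : ℕ, ∀ (N : ℕ) [Fact N.Prime], N₀ ≤ N →
      1 / 2 * normal V - ε ≤ pV V N ∧ pV V N ≤ normal V + ε) ∧
    (∀ κ : ℝ, 0 < κ → ∃ c : ℝ, 0 < c ∧ ∀ V ε : ℝ, 0 < ε → ∃ N₀ : ℕ,
      ∀ (N : ℕ) [Fact N.Prime], N₀ ≤ N →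
      (∀ (q : ℕ) [NeZero q] (χ : DirichletCharacter ℂ q) (β : ℝ), ¬ Exc κ N χ β) →
        (1 / 2 + c) * normal V - ε ≤ pV V N) ∧
    (∀ ε : ℝ, 0 < ε → ∃ κ : ℝ, 0 < κ ∧ ∀ V δ : ℝ, 0 < δ → ∃ N₀ : ℕ,
      ∀ (N : ℕ) [Fact N.Prime], N₀ ≤ N →
      ∀ (q : ℕ) [NeZero q] (χ : DirichletCharacter ℂ q) (β : ℝ), Exc κ N χ β →
        (χ (-(N : ZMod q)) = -1 → |pV V N - normal V| ≤ ε) ∧
        (χ (-(N : ZMod q)) = 1 → 1 - β ≤ Real.log N ^ (-1 - δ) →
          |pV V N - 1 / 2 * normal V| ≤ ε)) ∧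
    ((∃ V c : ℝ, 0 < c ∧ ∃ N₀ : ℕ, ∀ (N : ℕ) [Fact N.Prime], N₀ ≤ N →
      (1 / 2 + c) * normal V ≤ pV V N) → ∀ δ : ℝ, 0 < δ → Region (1 + δ)) ∧
    (NoSiegelZeros → ∃ c : ℝ, 0 < c ∧ ∀ V ε : ℝ, 0 < ε → ∃ N₀ : ℕ,
      ∀ (N : ℕ) [Fact N.Prime], N₀ ≤ N → (1 / 2 + c) * normal V - ε ≤ pV V N) ∧
    ((∃ V c : ℝ, 0 < c ∧ PosLower (fun N => ∀ h : N.Prime,
      (1 / 2 + c) * normal V ≤ @pV V N ⟨h⟩)) → ∀ δ : ℝ, 0 < δ →
        RegionOdd (1 + δ) ∧ ClassIm (1 + δ)) ∧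
    ((∀ δ : ℝ, 0 < δ → RegionOdd (1 + δ) ∧ ClassIm (1 + δ)) ∨
      ∀ V ε : ℝ, 0 < ε → UpperOne (fun N => ∀ h : N.Prime,
        |@pV V N ⟨h⟩ - 1 / 2 * normal V| ≤ ε)) := by
  refine ⟨fun V ε hε => ?_, fun κ hκ => ?_, fun ε hε => ?_, ?_, ?_, ?_, ?_⟩
  · obtain ⟨N₁, h1⟩ := T12.ks_half V hε
    obtain ⟨N₂, h2⟩ := T12.ks_up V hε
    refine ⟨N₁ + N₂, fun N _ hN => ?_⟩
    rw [pV_eq]
    exact ⟨h1 N (by omega), h2 N (by omega)⟩
  · obtain ⟨c, hc, h⟩ := T12.ks_free κ hκ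
    refine ⟨c, hc, fun V ε hε => ?_⟩
    obtain ⟨N₀, h⟩ := h V ε hε
    refine ⟨N₀, fun N _ hN hx => ?_⟩
    rw [pV_eq]
    exact h N hN fun q _ χ β h1 => hx q χ β ((exc_iff χ β).2 h1)
  · obtain ⟨κ₁, hκ₁, h1⟩ := T12.ks_minus_law ε hε
    obtain ⟨κ₂, hκ₂, h2⟩ := T12.ks_plus_law ε hε
    refine ⟨min κ₁ κ₂, lt_min hκ₁ hκ₂, fun V δ hδ => ?_⟩
    obtain ⟨N₁, h1⟩ := h1 V
    obtain ⟨N₂, h2⟩ := h2 V δ hδ
    refine ⟨N₁ + N₂ + 3, fun N _ hN q _ χ β hx => ?_⟩
    have h3 := (exc_iff χ β).1 hx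
    rw [pV_eq]
    exact ⟨h1 N (by omega) q χ β (exc_mono (min_le_left _ _) (by omega) h3),
      h2 N (by omega) q χ β (exc_mono (min_le_right _ _) (by omega) h3)⟩
  · rintro ⟨V, c, hc, N₀, h⟩ δ hδ
    rw [region_iff]
    refine AAS.ks_all (V := V) hc (N₀ := N₀) (fun N _ hN => ?_) δ hδ
    rw [← pV_eq]
    exact h N hN
  · rintro ⟨k, hk, h⟩
    obtain ⟨c, hc, h1⟩ := AAS.ks_free_all hk (fun q _ χ β hz => h q χ β ((rz_iff χ β).2 hz))
    refine ⟨c, hc, fun V ε hε => ?_⟩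
    obtain ⟨N₀, h1⟩ := h1 V ε hε
    refine ⟨N₀, fun N _ hN => ?_⟩
    rw [pV_eq]
    exact h1 N hN
  · rintro ⟨V, c, hc, h⟩ δ hδ
    obtain ⟨η, hη, X₀, h⟩ := posLower_cp h
    simp only [pV_eq] at h
    have hz := AAS.ks_pos (V := V) hc hη h δ hδ
    exact ⟨(regionOdd_iff _).2 hz, classIm_of (by linarith) hz⟩
  · by_cases hz : ∀ δ : ℝ, 0 < δ → T12.ZB (fun χ => χ.Odd) (1 + δ)
    · exact Or.inl fun δ hδ => ⟨(regionOdd_iff _).2 (hz δ hδ), classIm_of (by linarith) (hz δ hδ)⟩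
    · push Not at hz
      obtain ⟨δ, hδ, hz⟩ := hz
      refine Or.inr fun V ε hε => ?_
      have h1 := (T12.upperOne_iff _).1 (AAS.ks_upper hδ hz V ε hε)
      simp only [pV_eq]
      exact h1

end Pool.Agent.Results.MP_cc4f83_nt.KeatingSnaithSiegel
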